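import Mathlib

set_option autoImplicit false

open Finset Polynomial

namespace Pool.Agent.Helper79_Trinomial

section ring

variable {R : Type*} [CommRing R]

/-- `F c d m = ∑_k C(m,k) C(2k,k) c^k d^(m-k)`. -/
def F (c d : R) (m : ℕ) : R :=
  ∑ k ∈ range (m + 1), ((m.choose k : ℕ) : R) * (k.centralBinom : R) * c ^ k * d ^ (m - k)

/-- `W c d m = ∑_k C(m,k) Cat_k c^k d^(m-k)`. -/
def W (c d : R) (m : ℕ) : R :=
  ∑ k ∈ range (m + 1), ((m.choose k : ℕ) : R) * (catalan k : R) * c ^ k * d ^ (m - k)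

lemma F_zero (c d : R) : F c d 0 = 1 := by simp [F]

lemma F_one (c d : R) : F c d 1 = d + 2 * c := by
  simp [F, sum_range_succ, Nat.centralBinom]

lemma W_zero (c d : R) : W c d 0 = 1 := by simp [W]

lemma centralBinom_succ_cast (k : ℕ) :
    (((k + 1).centralBinom : ℕ) : R) + 2 * (catalan k : R) = 4 * (k.centralBinom : R) := by
  have h1 := Nat.succ_mul_centralBinom_succ k
  have h2 := succ_mul_catalan_eq_centralBinom k
  have h3 : (k + 1).centralBinom + 2 * catalan k = 4 * k.centralBinom := by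
    have hk : 0 < k + 1 := Nat.succ_pos k
    apply Nat.eq_of_mul_eq_mul_left hk
    calc (k + 1) * ((k + 1).centralBinom + 2 * catalan k)
        = (k + 1) * (k + 1).centralBinom + 2 * ((k + 1) * catalan k) := by ring
      _ = 2 * (2 * k + 1) * k.centralBinom + 2 * k.centralBinom := by rw [h1, h2]
      _ = (k + 1) * (4 * k.centralBinom) := by ring
  exact_mod_cast congrArg (Nat.cast : ℕ → R) h3

/-- Relation (A): `2 c W_m = (d + 4c) F_m - F_{m+1}`. -/
lemma relA (c d : R) (m : ℕ) : 2 * c * W c d m = (d + 4 * c) * F c d m - F c d (m + 1) := by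
  have h1 : F c d (m + 1) =
      d ^ (m + 1) + ∑ k ∈ range (m + 1), (((m + 1).choose (k + 1) : ℕ) : R)
        * ((k + 1).centralBinom : R) * c ^ (k + 1) * d ^ (m - k) := by
    unfold F
    rw [sum_range_succ']
    simp [add_comm]
  have h2 : d * F c d m = d ^ (m + 1) + ∑ k ∈ range (m + 1), ((m.choose (k + 1) : ℕ) : R)
        * ((k + 1).centralBinom : R) * c ^ (k + 1) * d ^ (m - k) := by
    unfold F
    rw [sum_range_succ', sum_range_succ _ m]
    rw [mul_add, mul_sum]
    have : ((m.choose (m + 1) : ℕ) : R) = 0 := by simp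
    rw [this]
    simp only [zero_mul, add_zero, Nat.choose_zero_right, Nat.cast_one, pow_zero, Nat.sub_zero,
      Nat.centralBinom_zero, mul_one, one_mul]
    rw [add_comm (∑ i ∈ range m, _), ← pow_succ']
    congr 1
    apply sum_congr rfl
    intro k hk
    have hk' : k < m := mem_range.mp hk
    have : m - k = (m - (k + 1)) + 1 := by omega
    rw [this, pow_succ]
    ring
  have h3 : (d + 4 * c) * F c d m - F c d (m + 1) = d * F c d m + 4 * c * F c d m
      - F c d (m + 1) := by ring
  rw [h3, h2, h1]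
  unfold F W
  rw [mul_sum, mul_sum]
  have : ∀ (A B C D : R), A + B + C - (A + D) = B + C - D := by intros; ring
  rw [this, ← sum_add_distrib, ← sum_sub_distrib]
  apply sum_congr rfl
  intro k _
  have hc : (((m + 1).choose (k + 1) : ℕ) : R) = (m.choose k : R) + (m.choose (k + 1) : R) := by
    rw [Nat.choose_succ_succ]; push_cast; ring
  have hb := centralBinom_succ_cast (R := R) k
  rw [hc]
  linear_combination ((m.choose k : ℕ) : R) * c ^ (k + 1) * d ^ (m - k) * hb

/-- Relation (B): `(m+2) W_{m+1} = (m+1) d W_m + F_{m+1}`. -/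
lemma relB (c d : R) (m : ℕ) :
    ((m : R) + 2) * W c d (m + 1) = ((m : R) + 1) * d * W c d m + F c d (m + 1) := by
  have h1 : ((m : R) + 1) * d * W c d m = ∑ k ∈ range (m + 2),
      (((m + 1) * (m.choose k) : ℕ) : R) * (catalan k : R) * c ^ k * d ^ (m + 1 - k) := by
    unfold W
    rw [sum_range_succ _ (m + 1), mul_sum]
    have : m.choose (m + 1) = 0 := by simp
    rw [this]
    simp only [mul_zero, Nat.cast_zero, zero_mul, add_zero]
    apply sum_congr rfl
    intro k hk
    have hk' : k < m + 1 := mem_range.mp hk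
    have : m + 1 - k = (m - k) + 1 := by omega
    rw [this, pow_succ]
    push_cast
    ring
  rw [h1]
  unfold W F
  rw [mul_sum, ← sum_add_distrib]
  apply sum_congr rfl
  intro k hk
  have hk' : k < m + 2 := mem_range.mp hk
  have h2 := succ_mul_catalan_eq_centralBinom k
  have h3 : (m + 2) * (m + 1).choose k = (m + 1) * m.choose k + (k + 1) * (m + 1).choose k := by
    rcases Nat.lt_or_ge k (m + 1) with h | h
    · have h4 : (m + 1) * m.choose k = (m + 1 - k) * (m + 1).choose k := by
        have := Nat.add_one_mul_choose_eq m k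
        have h5 := Nat.choose_succ_right_eq (m + 1) k
        rw [mul_comm ((m + 1).choose k)] at h5
        rw [this, ← h5, mul_comm]
      rw [h4, ← add_mul]
      congr 1
      omega
    · have : k = m + 1 := by omega
      subst this
      simp
  have h2' : (k.centralBinom : R) = ((k : R) + 1) * (catalan k : R) := by
    rw [← h2]; push_cast; ring
  have h3' : ((m : R) + 2) * ((m + 1).choose k : R)
      = (((m + 1) * (m.choose k) : ℕ) : R) + ((k : R) + 1) * ((m + 1).choose k : R) := by
    have := congrArg (Nat.cast : ℕ → R) h3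
    push_cast at this ⊢
    linear_combination this
  rw [h2']
  linear_combination (catalan k : R) * c ^ k * d ^ (m + 1 - k) * h3'

/-- Recurrence: `(m+2) F_{m+2} = (2m+3) (d+2c) F_{m+1} - (m+1) d (d+4c) F_m`. -/
lemma F_rec (c d : R) (m : ℕ) :
    ((m : R) + 2) * F c d (m + 2) =
      (2 * (m : R) + 3) * (d + 2 * c) * F c d (m + 1)
        - ((m : R) + 1) * d * (d + 4 * c) * F c d m := by
  have hA1 := relA c d (m + 1)
  have hA0 := relA c d m
  have hB := relB c d m
  linear_combination ((m : R) + 2) * hA1 - ((m : R) + 1) * d * hA0 - 2 * c * hB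

/-- The weighted sum of squares. -/
def S (c d : R) (n : ℕ) : R :=
  ∑ j ∈ range n, (8 * c * (j : R) + 4 * c + (d + 2 * c)) * F c d j ^ 2 * d ^ (2 * (n - 1 - j))

lemma S_succ (c d : R) (n : ℕ) :
    S c d (n + 2) = d ^ 2 * S c d (n + 1)
      + (8 * c * ((n : R) + 1) + 4 * c + (d + 2 * c)) * F c d (n + 1) ^ 2 := by
  unfold S
  rw [sum_range_succ _ (n + 1), mul_sum]
  congr 1
  · apply sum_congr rfl
    intro j hj
    have hj' : j < n + 1 := mem_range.mp hj
    have : 2 * (n + 2 - 1 - j) = 2 * (n + 1 - 1 - j) + 2 := by omega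
    rw [this, pow_add]
    ring
  · simp

/-- Main identity. -/
lemma main_identity (c d : R) (n : ℕ) :
    (d + 2 * c) * S c d (n + 1) = ((n : R) + 1) * (d + 4 * c) * (F c d (n + 1) * F c d n)
      + 2 * ((n : R) + 1) ^ 2 * c * (d + 2 * c) * W c d n ^ 2 := by
  induction n with
  | zero =>
    simp [S, F_one, F_zero, W_zero]
    ring
  | succ n ih =>
    rw [S_succ]
    have hA := relA c d n
    have hB := relB c d n
    have hr := F_rec c d n
    push_cast
    have e1 : (((n : R) + 1) + 1) ^ 2 * W c d (n + 1) ^ 2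
        = (((n : R) + 1) * d * W c d n + F c d (n + 1)) ^ 2 := by
      rw [← hB]; ring
    have e2 : ((n : R) + 1 + 1) * (d + 4 * c) * (F c d (n + 1 + 1) * F c d (n + 1))
        = (d + 4 * c) * F c d (n + 1) * ((2 * (n : R) + 3) * (d + 2 * c) * F c d (n + 1)
        - ((n : R) + 1) * d * (d + 4 * c) * F c d n) := by
      rw [← hr]; ring
    have e3 : 2 * ((n : R) + 1 + 1) ^ 2 * c * (d + 2 * c) * W c d (n + 1) ^ 2
        = 2 * c * (d + 2 * c) * (((n : R) + 1) * d * W c d n + F c d (n + 1)) ^ 2 := by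
      rw [← e1]; ring
    rw [e2, e3]
    linear_combination d ^ 2 * ih
      - (2 * (d + 2 * c) * ((n : R) + 1) * d * F c d (n + 1)) * hA

end ring

/-- The constant term in the shifted variable vanishes for odd indices. -/
lemma F_odd_zero (c : ℤ) (m : ℕ) : F c (-(2 * c)) (2 * m + 1) = 0 := by
  induction m with
  | zero => simp [F_one]
  | succ m ih =>
    have h := F_rec c (-(2 * c)) (2 * m + 1)
    rw [ih] at h
    have h' : ((2 * m + 1 : ℕ) : ℤ) + 2 ≠ 0 := by positivity
    have h3 : (((2 * m + 1 : ℕ) : ℤ) + 2) * F c (-(2 * c)) (2 * m + 1 + 2) = 0 := by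
      rw [h]; ring
    rcases mul_eq_zero.mp h3 with h4 | h4
    · exact absurd h4 h'
    · exact h4

lemma F_map {R S : Type*} [CommRing R] [CommRing S] (φ : R →+* S) (c d : R) (m : ℕ) :
    φ (F c d m) = F (φ c) (φ d) m := by
  simp [F]

lemma W_map {R S : Type*} [CommRing R] [CommRing S] (φ : R →+* S) (c d : R) (m : ℕ) :
    φ (W c d m) = W (φ c) (φ d) m := by
  simp [W]

lemma S_map {R S' : Type*} [CommRing R] [CommRing S'] (φ : R →+* S') (c d : R) (m : ℕ) :
    φ (S c d m) = S (φ c) (φ d) m := by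
  simp [S, F_map, map_ofNat]

/-- Divisibility over the integers. -/
theorem dvd_S (c d : ℤ) (n : ℕ) : ((n : ℤ) + 1) ∣ S c d (n + 1) := by
  set b : ℤ := d + 2 * c with hb
  -- work in ℤ[X]
  let C' : ℤ[X] := C c
  let D' : ℤ[X] := X - 2 * C c
  have hX : D' + 2 * C' = X := by simp [D', C']
  have key := main_identity C' D' n
  have hdiv : (X : ℤ[X]) ∣ F C' D' (n + 1) * F C' D' n := by
    rw [X_dvd_iff]
    have h0 : ∀ m : ℕ, (F C' D' m).coeff 0 = F c (-(2 * c)) m := by
      intro m
      have := F_map (Polynomial.evalRingHom (0 : ℤ)) C' D' m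
      rw [coeff_zero_eq_eval_zero]
      simpa [C', D'] using this
    rw [mul_coeff_zero, h0, h0]
    rcases Nat.even_or_odd' n with ⟨k, rfl | rfl⟩
    · rw [F_odd_zero]; ring
    · rw [F_odd_zero]; ring
  obtain ⟨G, hG⟩ := hdiv
  have h2 : X * S C' D' (n + 1) = X * ((((n : ℤ[X]) + 1)) * ((D' + 4 * C') * G
      + 2 * ((n : ℤ[X]) + 1) * C' * W C' D' n ^ 2)) := by
    rw [hX, hG] at key
    linear_combination key
  have h3 := mul_left_cancel₀ (X_ne_zero : (X : ℤ[X]) ≠ 0) h2
  have h4 := congrArg (Polynomial.evalRingHom b) h3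
  have h5 : Polynomial.evalRingHom b (S C' D' (n + 1)) = S c d (n + 1) := by
    rw [S_map]
    congr 1
    · simp [C']
    · simp [D', hb]
  rw [h5] at h4
  rw [h4, map_mul]
  apply Dvd.dvd.mul_right
  have : Polynomial.evalRingHom b ((n : ℤ[X]) + 1) = (n : ℤ) + 1 := by simp
  rw [this]

/-- Coefficient formula for the generalized central trinomial coefficient with `c` a square. -/
lemma coeff_trinomial {R : Type*} [CommRing R] (b c : R) (m : ℕ) :
    ((X ^ 2 + C b * X + C (c ^ 2)) ^ m : R[X]).coeff m = F c (b - 2 * c) m := by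
  have h : (X ^ 2 + C b * X + C (c ^ 2) : R[X]) = (X + C c) ^ 2 + C (b - 2 * c) * X := by
    have h2 : (C (2 : R) : R[X]) = 2 := C_ofNat 2
    rw [C_sub, C_mul, C_pow, h2]
    ring
  rw [h, add_pow, finsetSum_coeff]
  unfold F
  apply sum_congr rfl
  intro k hk
  have hk' : k ≤ m := Nat.lt_succ_iff.mp (mem_range.mp hk)
  rw [mul_pow, ← pow_mul, ← C_pow, ← C_eq_natCast]
  have e1 : ((X + C c) ^ (2 * k) * (C ((b - 2 * c) ^ (m - k)) * X ^ (m - k))
      * C ((m.choose k : ℕ) : R) : R[X])
      = C ((m.choose k : ℕ) : R) * C ((b - 2 * c) ^ (m - k)) * ((X + C c) ^ (2 * k)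
      * X ^ (m - k)) := by ring
  rw [e1, ← C_mul, coeff_C_mul]
  have e2 : ((X + C c) ^ (2 * k) * X ^ (m - k) : R[X]).coeff m = ((X + C c) ^ (2 * k)).coeff k := by
    have : m = k + (m - k) := by omega
    conv_lhs => rw [this]
    have h6 : k + (m - k) - k = m - k := by omega
    rw [h6, coeff_mul_X_pow]
  rw [e2, coeff_X_add_C_pow]
  have : 2 * k - k = k := by omega
  rw [this, Nat.centralBinom]
  ring

end Pool.Agent.Helper79_Trinomial
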