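import Mathlib
import Pool.Agent.Helper79_Trinomial.Basic

set_option autoImplicit false

open Finset Polynomial

namespace Pool.Agent.Helper79_Trinomial

/-- `F_p ≡ d + 2c` modulo `p`. -/
lemma F_prime (p : ℕ) [hp : Fact p.Prime] (c d : ZMod p) : F c d p = d + 2 * c := by
  have h := coeff_trinomial (d + 2 * c) c p
  have e : d + 2 * c - 2 * c = d := by ring
  rw [e] at h
  rw [← h, ← ZMod.expand_card]
  have : p = 1 * p := (one_mul p).symm
  have h2 : ((expand (ZMod p) p) (X ^ 2 + C (d + 2 * c) * X + C (c ^ 2))).coeff (1 * p)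
      = (X ^ 2 + C (d + 2 * c) * X + C (c ^ 2) : (ZMod p)[X]).coeff 1 :=
    coeff_expand_mul hp.out.pos _ _
  rw [one_mul] at h2
  rw [h2]
  rw [coeff_add, coeff_add, coeff_C_mul, coeff_X_one, coeff_X_pow, coeff_C]
  simp

/-- `C(p-1,k) C(2k,k) = 4^k C((p-1)/2,k)` in `ZMod p`, for `k ≤ p-1`. -/
lemma choose_mul_centralBinom (p : ℕ) [hp : Fact p.Prime] (hp2 : p ≠ 2) (k : ℕ) (hk : k + 1 ≤ p) :
    (((p - 1).choose k : ℕ) : ZMod p) * (k.centralBinom : ZMod p)
      = 4 ^ k * (((p / 2).choose k : ℕ) : ZMod p) := by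
  induction k with
  | zero => simp
  | succ k ih =>
    have ih' := ih (by omega)
    have hodd : p = 2 * (p / 2) + 1 := by
      have := hp.out.eq_two_or_odd
      omega
    have hk1 : ((k : ZMod p) + 1) ≠ 0 := by
      intro h0
      have h1 : ((k + 1 : ℕ) : ZMod p) = 0 := by push_cast; exact h0
      rw [ZMod.natCast_eq_zero_iff] at h1
      have := Nat.le_of_dvd (Nat.succ_pos k) h1
      omega
    have hp0 : (p : ZMod p) = 0 := ZMod.natCast_self p
    -- (k+1) C(p-1,k+1) = (p-1-k) C(p-1,k)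
    have a1 := Nat.choose_succ_right_eq (p - 1) k
    have a1' : (((p - 1).choose (k + 1) : ℕ) : ZMod p) * ((k : ZMod p) + 1)
        = (((p - 1).choose k : ℕ) : ZMod p) * (-1 - k) := by
      have := congrArg (Nat.cast : ℕ → ZMod p) a1
      rw [Nat.cast_mul, Nat.cast_mul, Nat.cast_sub (by omega), Nat.cast_sub (by omega)] at this
      rw [hp0] at this
      push_cast at this
      linear_combination this
    have a2 := Nat.succ_mul_centralBinom_succ k
    have a2' : ((k : ZMod p) + 1) * ((k + 1).centralBinom : ZMod p)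
        = 2 * (2 * k + 1) * (k.centralBinom : ZMod p) := by
      have := congrArg (Nat.cast : ℕ → ZMod p) a2
      push_cast at this
      linear_combination this
    have a3' : (((p / 2).choose (k + 1) : ℕ) : ZMod p) * ((k : ZMod p) + 1)
        = (((p / 2).choose k : ℕ) : ZMod p) * (((p / 2 : ℕ) : ZMod p) - k) := by
      rcases Nat.lt_or_ge (p / 2) k with h | h
      · rw [Nat.choose_eq_zero_of_lt h, Nat.choose_eq_zero_of_lt (by omega : p / 2 < k + 1)]
        simp
      · have a3 := Nat.choose_succ_right_eq (p / 2) k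
        have := congrArg (Nat.cast : ℕ → ZMod p) a3
        rw [Nat.cast_mul, Nat.cast_mul, Nat.cast_sub h] at this
        push_cast at this
        linear_combination this
    have a4 : 2 * ((p / 2 : ℕ) : ZMod p) = -1 := by
      have := congrArg (Nat.cast : ℕ → ZMod p) hodd
      rw [hp0] at this
      push_cast at this
      linear_combination -this
    have hk2 : ((k : ZMod p) + 1) ^ 2 ≠ 0 := pow_ne_zero _ hk1
    apply mul_left_cancel₀ hk2
    have step1 : ((k : ZMod p) + 1) ^ 2 * ((((p - 1).choose (k + 1) : ℕ) : ZMod p)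
        * ((k + 1).centralBinom : ZMod p))
        = ((((p - 1).choose (k + 1) : ℕ) : ZMod p) * ((k : ZMod p) + 1))
          * (((k : ZMod p) + 1) * ((k + 1).centralBinom : ZMod p)) := by ring
    have step2 : ((k : ZMod p) + 1) ^ 2 * (4 ^ (k + 1) * (((p / 2).choose (k + 1) : ℕ) : ZMod p))
        = 4 * 4 ^ k * ((k : ZMod p) + 1) * ((((p / 2).choose (k + 1) : ℕ) : ZMod p)
          * ((k : ZMod p) + 1)) := by ring
    rw [step1, step2, a1', a2', a3']
    have : (((p - 1).choose k : ℕ) : ZMod p) * (-1 - k) * (2 * (2 * k + 1)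
        * (k.centralBinom : ZMod p))
        = (-1 - k) * (2 * (2 * k + 1)) * ((((p - 1).choose k : ℕ) : ZMod p)
        * (k.centralBinom : ZMod p)) := by ring
    rw [this, ih']
    linear_combination (-(2 : ZMod p) * 4 ^ k * ((k : ZMod p) + 1)
      * (((p / 2).choose k : ℕ) : ZMod p)) * a4

/-- `F_{p-1} ≡ (d(d+4c))^((p-1)/2)` modulo `p`. -/
lemma F_pred (p : ℕ) [hp : Fact p.Prime] (hp2 : p ≠ 2) (c d : ZMod p) :
    F c d (p - 1) = (d * (d + 4 * c)) ^ (p / 2) := by
  have hodd : p = 2 * (p / 2) + 1 := by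
    have := hp.out.eq_two_or_odd
    omega
  set q := p / 2 with hq
  have hpq : p - 1 = q + q := by omega
  unfold F
  have h1 : ∑ k ∈ range (p - 1 + 1), (((p - 1).choose k : ℕ) : ZMod p) * (k.centralBinom : ZMod p)
      * c ^ k * d ^ (p - 1 - k)
      = ∑ k ∈ range (p - 1 + 1), 4 ^ k * ((q.choose k : ℕ) : ZMod p) * c ^ k * d ^ (p - 1 - k) := by
    apply sum_congr rfl
    intro k hk
    have hk' : k < p - 1 + 1 := mem_range.mp hk
    rw [choose_mul_centralBinom p hp2 k (by omega)]
  rw [h1]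
  have h2 : ∑ k ∈ range (q + 1), 4 ^ k * ((q.choose k : ℕ) : ZMod p) * c ^ k * d ^ (p - 1 - k)
      = ∑ k ∈ range (p - 1 + 1), 4 ^ k * ((q.choose k : ℕ) : ZMod p) * c ^ k * d ^ (p - 1 - k) := by
    apply sum_subset
    · apply range_subset_range.mpr
      omega
    · intro k _ hk
      have : q < k := by
        have := mt mem_range.mpr hk
        omega
      rw [Nat.choose_eq_zero_of_lt this]
      simp
  rw [← h2, mul_pow, add_comm d, add_pow, mul_sum]
  apply sum_congr rfl
  intro k hk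
  have hk' : k < q + 1 := mem_range.mp hk
  have : p - 1 - k = q + (q - k) := by omega
  rw [this, pow_add, mul_pow]
  ring

/-- The integer form of the congruence modulo `p^2`. -/
theorem S_prime (p : ℕ) [hp : Fact p.Prime] (hp2 : p ≠ 2) (b c : ℤ)
    (h : ¬ (p : ℤ) ∣ b * (b - 2 * c)) :
    ((p : ℤ) ^ 2) ∣ S c (b - 2 * c) p
      - p * (b + 2 * c) * legendreSym p (b ^ 2 - 4 * c ^ 2) * (b - 2 * c) ^ (2 * (p - 1)) := by
  set d : ℤ := b - 2 * c with hd
  have hpr : Prime (p : ℤ) := Nat.prime_iff_prime_int.mp hp.out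
  have hb : ¬ (p : ℤ) ∣ b := fun h' => h (h'.mul_right _)
  have hdd : ¬ (p : ℤ) ∣ d := fun h' => h (h'.mul_left _)
  obtain ⟨n, hn⟩ : ∃ n, p = n + 1 := ⟨p - 1, by have := hp.out.pos; omega⟩
  have key := main_identity c d n
  rw [← hn] at key
  have hn' : n = p - 1 := by omega
  have hcast : (n : ℤ) + 1 = p := by rw [hn]; push_cast; ring
  rw [hcast, hn'] at key
  have hbd : d + 2 * c = b := by rw [hd]; ring
  rw [hbd] at key
  have hde : d + 4 * c = b + 2 * c := by rw [hd]; ring
  rw [hde] at key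
  set χ := legendreSym p (b ^ 2 - 4 * c ^ 2) with hχ
  -- mod p congruence
  have hmod : (p : ℤ) ∣ F c d p * F c d (p - 1) - χ * b * d ^ (2 * (p - 1)) := by
    rw [← ZMod.intCast_zmod_eq_zero_iff_dvd]
    push_cast
    have h1 : ((F c d p : ℤ) : ZMod p) = (b : ZMod p) := by
      have := F_map (Int.castRingHom (ZMod p)) c d p
      simp only [eq_intCast] at this
      rw [this, F_prime]
      rw [← hbd]; push_cast; ring
    have h2 : ((F c d (p - 1) : ℤ) : ZMod p) = (χ : ZMod p) := by
      have := F_map (Int.castRingHom (ZMod p)) c d (p - 1)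
      simp only [eq_intCast] at this
      rw [this, F_pred p hp2, hχ, legendreSym.eq_pow]
      congr 1
      rw [hd]; push_cast; ring
    have h3 : (d : ZMod p) ^ (2 * (p - 1)) = 1 := by
      have hne : (d : ZMod p) ≠ 0 := by
        intro h0
        exact hdd ((ZMod.intCast_zmod_eq_zero_iff_dvd d p).mp h0)
      rw [mul_comm, pow_mul, ZMod.pow_card_sub_one_eq_one hne, one_pow]
    rw [h1, h2, h3]
    ring
  obtain ⟨m, hm⟩ := hmod
  -- b * D is divisible by p^2
  have hbD : ((p : ℤ) ^ 2) ∣ b * (S c d p - p * (b + 2 * c) * χ * d ^ (2 * (p - 1))) := by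
    refine ⟨(b + 2 * c) * m + 2 * c * b * W c d (p - 1) ^ 2, ?_⟩
    linear_combination key + (p : ℤ) * (b + 2 * c) * hm
  have hcop : IsCoprime ((p : ℤ) ^ 2) b := by
    apply IsCoprime.pow_left
    exact (Prime.coprime_iff_not_dvd hpr).mpr hb
  exact hcop.dvd_of_dvd_mul_left hbD

end Pool.Agent.Helper79_Trinomial
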